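import Mathlib
import Pool.Agent.Lib.helper17.SG2

set_option autoImplicit false

namespace Pool.Agent.Results.MP_26bbbf_al.No

variable {G R : Type} [AddGroup G] [Ring R]

/-- R is the direct sum of the additive subgroups A g and A g * A h lies in A (g + h) -/
def IsGrading (A : G → AddSubgroup R) : Prop :=
  iSupIndep A ∧ ⨆ g, A g = ⊤ ∧ ∀ g h, ∀ x ∈ A g, ∀ y ∈ A h, x * y ∈ A (g + h)

/-- A (g + h) is the set of finite sums of products -/
def Strong (A : G → AddSubgroup R) : Prop :=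
  ∀ g h, A (g + h) = AddSubgroup.closure {z | ∃ x ∈ A g, ∃ y ∈ A h, z = x * y}

/-- the sum of the components indexed by S -/
def RH (A : G → AddSubgroup R) (S : Set G) : AddSubgroup R := ⨆ g ∈ S, A g

/-- sub-bimodule of R over the neutral component -/
def IsBimod (A : G → AddSubgroup R) (M : AddSubgroup R) : Prop :=
  ∀ a ∈ A 0, ∀ x ∈ M, a * x ∈ M ∧ x * a ∈ M

/-- isomorphic as bimodules over the neutral component -/
def BimodIso (A : G → AddSubgroup R) (M N : AddSubgroup R) : Prop :=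
  ∃ f : M ≃+ N, ∀ a ∈ A 0, ∀ x y : M,
    ((y : R) = a * x → (f y : R) = a * f x) ∧ ((y : R) = x * a → (f y : R) = f x * a)

def Controlled (A : G → AddSubgroup R) : Prop :=
  Set.BijOn (RH A) Set.univ {M | IsBimod A M} ∧ ∀ S T, BimodIso A (RH A S) (RH A T) → S = T

open Pool.Agent.Lib.helper17.SG Filter

theorem result : ∃ (G : Type) (_ : AddGroup G) (R : Type) (_ : Ring R) (A : G → AddSubgroup R),
    IsGrading A ∧ Strong A ∧ Controlled A ∧ ∃ g, ∀ u ∈ A g, ¬ IsUnit u := by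
  have ex : ∀ d, ∃ z ∈ Rd ν d, z ≠ 0 := fun d => by
    obtain ⟨p, p1, q, -, e⟩ := nz d 0
    exact ⟨p, p1, left_ne_zero_of_mul e⟩
  have sub : ∀ {S : Set ℤ} {d}, d ∈ S → Rd ν d ≤ RH (Rd ν) S := fun h => le_biSup (Rd ν) h
  refine ⟨ℤ, inferInstance, RR, inferInstance, Rd ν, ⟨?_, ?_, fun g h x hx y hy => mul_mem' hx hy rfl⟩,
    fun g h => ?_, ⟨⟨fun S _ => bim_sup S, fun S _ T _ e => ?_, fun M hM => ?_⟩, ?_⟩, 1, ?_⟩
  · refine iSupIndep_def.2 fun d => AddSubgroup.disjoint_def.2 fun {z} h1 h2 => ?_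
    by_contra e
    exact deg (S := {j | j ≠ d}) h2 h1 e rfl
  · exact eq_top_iff.2 fun z _ => by simpa using top z
  · refine le_antisymm ?_ ((AddSubgroup.closure_le _).2 ?_)
    · obtain ⟨p, p1, q, q1, e⟩ := nz g h
      refine simple' HR (fun a ha z hz => ?_) (AddSubgroup.subset_closure ⟨p, p1, q, q1, rfl⟩) e
        (mul_mem' p1 q1 rfl)
      induction hz using AddSubgroup.closure_induction with
      | mem _ hz =>
        obtain ⟨x, hx, y, hy, rfl⟩ := hz
        exact ⟨AddSubgroup.subset_closure ⟨_, mul_mem' ha hx (zero_add g).symm, y, hy,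
          (mul_assoc _ _ _).symm⟩, AddSubgroup.subset_closure ⟨x, hx, _,
          mul_mem' hy ha (add_zero h).symm, mul_assoc _ _ _⟩⟩
      | zero => simp
      | add x y _ _ hx hy => rw [mul_add, add_mul]; exact ⟨add_mem hx.1 hy.1, add_mem hx.2 hy.2⟩
      | neg x _ hx => rw [mul_neg, neg_mul]; exact ⟨neg_mem hx.1, neg_mem hx.2⟩
    · rintro _ ⟨x, hx, y, hy, rfl⟩
      exact mul_mem' hx hy rfl
  · ext d
    obtain ⟨z, z1, z2⟩ := ex d
    exact ⟨fun h => deg (e.le (sub h z1)) z1 z2, fun h => deg (e.ge (sub h z1)) z1 z2⟩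
  · refine ⟨{d | Rd ν d ≤ M}, trivial, le_antisymm (iSup₂_le fun _ h => h) fun z hz => ?_⟩
    obtain ⟨T, -, a2, rfl⟩ := rep (top z)
    exact sum_mem fun d hd => sub (simple' HR hM (extract hM _ T (fun d _ => a2 d) hz d hd)
      (Finsupp.mem_support_iff.1 hd) (a2 d)) (a2 d)
  · rintro S T ⟨f, hf⟩
    have key : ∀ (x : RH (Rd ν) S) d, x.1 ∈ Rd ν d ↔ (f x).1 ∈ Rd ν d := fun x d => by
      refine eventually_congr (Eventually.of_forall fun n => forall_congr' fun a => ?_)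
      let u : RH (Rd ν) S := ⟨_, (bim_sup S _ (ι_mem (a ^ 2 ^ n)) _ x.2).2⟩
      let v : RH (Rd ν) S := ⟨_, (bim_sup S _ (ι_mem (a ^ 2 ^ (n + d).toNat)) _ x.2).1⟩
      rw [← (hf _ (ι_mem _) x u).2 rfl, ← (hf _ (ι_mem _) x v).1 rfl, ← Subtype.ext_iff,
        f.apply_eq_iff_eq]
      exact (Subtype.ext_iff (a1 := u) (a2 := v)).symm
    ext d
    obtain ⟨z, z1, z2⟩ := ex d
    refine ⟨fun h => deg (f ⟨z, sub h z1⟩).2 ((key _ d).1 z1) (by simpa using z2), fun h =>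
      deg (f.symm ⟨z, sub h z1⟩).2 ((key _ d).2 (by simpa using z1)) (by simpa using z2)⟩
  · rintro _ hu ⟨u, rfl⟩
    exact no_unit (Rd_coe.1 hu) (u⁻¹ : RRˣ).1.1 (congrArg Subtype.val u.mul_inv)

end Pool.Agent.Results.MP_26bbbf_al.No
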